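import Pool.Agent.K.MP_d0f95c_al.C0

set_option autoImplicit false

namespace Pool.Agent.Results.MP_d0f95c_al.Abelian

open Pool.Agent.P.MP_d0f95c_al

/-- If the minimal invariant character degrees of a normal subgroup `N` of a finite group `G`
form the set `{1, f}`, then the commutator subgroup `[N, G]` is abelian. -/
theorem result (G : Type) [Group G] [Finite G] (N : Subgroup G) [N.Normal] (f : ℕ) (hf : 0 < f)
    (h : mcdSet N = {1, (f : ℂ)}) :
    ∀ x ∈ ⁅N, (⊤ : Subgroup G)⁆, ∀ y ∈ ⁅N, (⊤ : Subgroup G)⁆, x * y = y * x :=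
  main G N f hf h

end Pool.Agent.Results.MP_d0f95c_al.Abelian
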